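import Pool.Agent.Helper33.HM.Basic

/-!
# Names of functions and of closed sets; the interface of a Hechler iteration
-/

set_option autoImplicit false

namespace Pool.Agent.Helper33.HM

universe u

section

variable {B : Type u} [CompleteBooleanAlgebra B]

/-- `T` is forced to be a pruned tree. -/
def IsPr (T : List Bool → B) : Prop := ∀ σ, T σ = T (σ ++ [false]) ⊔ T (σ ++ [true])

/-- The value of: the closed set coded by `C` is contained in the one coded by `Z`. -/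
def subV (C Z : List Bool → B) : B := ⨅ σ : List Bool, C σ ⇨ Z σ

/-- `g` is a name, with values in `S`, for a function `ℕ → ℕ`; `g n k` is the value of
`g(n) ≤ k`. -/
structure IsFn (S : Set B) (g : ℕ → ℕ → B) : Prop where
  mem : ∀ n k, g n k ∈ S
  mono : ∀ n k, g n k ≤ g n (k + 1)
  tot : ∀ n, ⨆ k, g n k = ⊤

/-- The value of: `f ≤ g` pointwise. -/
def leF (f g : ℕ → ℕ → B) : B := ⨅ n : ℕ, ⨅ k : ℕ, g n k ⇨ f n k

/-- The name of the natural number `m`. -/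
def natN (m : ℕ) : ℕ → B := fun k => if m ≤ k then ⊤ else ⊥

/-- `f` is forced to extend the finite sequence `r`. -/
def ExtF (r : List ℕ) (f : ℕ → ℕ → B) : Prop := ∀ (i : ℕ) (h : i < r.length), f i = natN r[i]

/-- The value of: the natural number named by `g` equals `m`. -/
def eqN (g : ℕ → B) (m : ℕ) : B := g m ⊓ ⨅ j : ℕ, ⨅ _ : j < m, (g j)ᶜ

/-- The value of: `d` extends `s`, and `g(n) ≤ d(n)` for all `n ≥ |s|`. -/
def hcond (d : ℕ → ℕ → B) (s : List ℕ) (g : ℕ → ℕ → B) : B :=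
  (⨅ i : ℕ, ⨅ h : i < s.length, eqN (d i) s[i]) ⊓
    ⨅ n : ℕ, ⨅ _ : s.length ≤ n, ⨅ k : ℕ, d n k ⇨ g n k

/-- On `b`, the closed set `C` is contained in a closed set of measure zero with a name in `S`. -/
def Type1 (S : Set B) (C : List Bool → B) (b : B) : Prop :=
  ∃ Z : List Bool → B, (∀ σ, Z σ ∈ S) ∧ IsPr Z ∧ nullV Z = ⊤ ∧ b ≤ subV C Z

/-- On `b`, there is a sequence of closed sets of positive measure with names in `S` such that
every closed set with a name in `S` which contains `C` contains one of them. -/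
def Type2 (S : Set B) (C : List Bool → B) (b : B) : Prop :=
  ∃ K : ℕ → List Bool → B, (∀ n σ, K n σ ∈ S) ∧ (∀ n, IsPr (K n)) ∧ (∀ n, nullV (K n) = ⊥) ∧
    ∀ F : List Bool → B, (∀ σ, F σ ∈ S) → IsPr F → b ⊓ subV C F ≤ ⨆ n, subV (K n) F

/-- The dichotomy for closed sets with names in `T`, over `S`. -/
def Good (S T : Set B) : Prop :=
  ∀ C : List Bool → B, (∀ σ, C σ ∈ T) → IsPr C → ∀ b ∈ T, b ≠ ⊥ →
    ∃ c ∈ T, c ≠ ⊥ ∧ c ≤ b ∧ (Type1 S C c ∨ Type2 S C c)

end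

/-- A finite support iteration of Hechler forcing along all ordinals of the smallest universe, as
a complete Boolean algebra `B` with a filtration by complete subalgebras. -/
structure HIter (B : Type 1) [CompleteBooleanAlgebra B] where
  nt : (⊥ : B) ≠ ⊤
  ccc : CCC B
  /-- the subalgebra generated by the first `β` steps -/
  S : Ordinal.{0} → Set B
  sub : ∀ β, IsSub (S β)
  mono : ∀ β γ, β ≤ γ → S β ⊆ S γ
  small : ∀ β, Small.{0} (S β)
  lim : ∀ δ, Order.IsSuccLimit δ → ∀ b ∈ S δ, b ≠ ⊥ → ∃ β < δ, ∃ c ∈ S β, c ≠ ⊥ ∧ c ≤ b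
  top : ∀ b : B, b ≠ ⊥ → ∃ β, ∃ c ∈ S β, c ≠ ⊥ ∧ c ≤ b
  /-- the Hechler reals -/
  d : Ordinal.{0} → ℕ → ℕ → B
  d_fn : ∀ β, IsFn (S (Order.succ β)) (d β)
  pos : ∀ β s g, IsFn (S β) g → ∀ b ∈ S β, b ≠ ⊥ → b ⊓ hcond (d β) s g ≠ ⊥
  dense : ∀ β, ∀ b ∈ S (Order.succ β), b ≠ ⊥ →
    ∃ c ∈ S β, c ≠ ⊥ ∧ ∃ s g, IsFn (S β) g ∧ c ⊓ hcond (d β) s g ≤ b

end Pool.Agent.Helper33.HM
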