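import Pool.Agent.Helper33.HM.Basic

/-!
# The complete Boolean algebra of regular open sets of a preorder
-/

set_option autoImplicit false

namespace Pool.Agent.Helper33.HM

universe u

/-- Regular open (lower) subsets of a preorder. -/
structure RO (P : Type u) [Preorder P] where
  carrier : Set P
  lower : ∀ p ∈ carrier, ∀ q, q ≤ p → q ∈ carrier
  reg : ∀ p, (∀ q, q ≤ p → ∃ r, r ≤ q ∧ r ∈ carrier) → p ∈ carrier

namespace RO

variable {P : Type u} [Preorder P]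

instance : Membership P (RO P) := ⟨fun U p => p ∈ U.carrier⟩

theorem mem_def {U : RO P} {p : P} : p ∈ U ↔ p ∈ U.carrier := Iff.rfl

theorem ext' {U V : RO P} (h : ∀ p, p ∈ U ↔ p ∈ V) : U = V := by
  cases U; cases V
  congr
  ext p
  exact h p

theorem mem_lower {U : RO P} {p q : P} (h : q ≤ p) (hp : p ∈ U) : q ∈ U := U.lower p hp q h

theorem mem_reg {U : RO P} {p : P} (h : ∀ q, q ≤ p → ∃ r, r ≤ q ∧ r ∈ U) : p ∈ U := U.reg p h

instance : PartialOrder (RO P) where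
  le U V := ∀ p, p ∈ U → p ∈ V
  le_refl _ _ h := h
  le_trans _ _ _ h1 h2 p hp := h2 p (h1 p hp)
  le_antisymm _ _ h1 h2 := ext' fun p => ⟨h1 p, h2 p⟩

theorem le_def {U V : RO P} : U ≤ V ↔ ∀ p, p ∈ U → p ∈ V := Iff.rfl

/-- The regular open set generated by a set of conditions. -/
def gen (A : Set P) : RO P where
  carrier := {p | ∀ q, q ≤ p → ∃ r, r ≤ q ∧ ∃ a ∈ A, r ≤ a}
  lower p hp q hq r hr := hp r (hr.trans hq)
  reg p hp q hq := by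
    obtain ⟨r, hr, hr'⟩ := hp q hq
    obtain ⟨t, ht, a, ha, hta⟩ := hr' r le_rfl
    exact ⟨t, ht.trans hr, a, ha, hta⟩

theorem mem_gen {A : Set P} {p : P} : p ∈ gen A ↔ ∀ q, q ≤ p → ∃ r, r ≤ q ∧ ∃ a ∈ A, r ≤ a :=
  Iff.rfl

instance : CompleteBooleanAlgebra (RO P) where
  le U V := ∀ p, p ∈ U → p ∈ V
  le_refl _ _ h := h
  le_trans _ _ _ h1 h2 p hp := h2 p (h1 p hp)
  le_antisymm _ _ h1 h2 := ext' fun p => ⟨h1 p, h2 p⟩
  top := ⟨Set.univ, fun _ _ _ _ => trivial, fun _ _ => trivial⟩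
  le_top _ _ _ := trivial
  bot := ⟨∅, fun _ h => h.elim, fun p h => by
    obtain ⟨_, _, hr⟩ := h p le_rfl
    exact hr⟩
  bot_le _ _ h := h.elim
  inf U V := ⟨U.carrier ∩ V.carrier, fun p hp q hq => ⟨U.lower p hp.1 q hq, V.lower p hp.2 q hq⟩,
    fun p hp => ⟨U.reg p fun q hq => (hp q hq).imp fun r hr => ⟨hr.1, hr.2.1⟩,
      V.reg p fun q hq => (hp q hq).imp fun r hr => ⟨hr.1, hr.2.2⟩⟩⟩
  inf_le_left _ _ _ h := h.1
  inf_le_right _ _ _ h := h.2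
  le_inf _ _ _ h1 h2 p hp := ⟨h1 p hp, h2 p hp⟩
  sSup A := gen {p | ∃ U ∈ A, p ∈ U}
  isLUB_sSup A := ⟨fun U hU p hp q hq => ⟨q, le_rfl, q, ⟨U, hU, mem_lower hq hp⟩, le_rfl⟩,
    fun U hU p hp => mem_reg fun q hq => by
      obtain ⟨r, hr, a, ⟨V, hV, haV⟩, hra⟩ := hp q hq
      exact ⟨r, hr, hU hV r (mem_lower hra haV)⟩⟩
  sInf A := ⟨{p | ∀ U ∈ A, p ∈ U}, fun p hp q hq U hU => mem_lower hq (hp U hU),
    fun p hp U hU => mem_reg fun q hq => (hp q hq).imp fun r hr => ⟨hr.1, hr.2 U hU⟩⟩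
  isGLB_sInf A := ⟨fun U hU p hp => hp U hU, fun U h p hp V hV => h hV p hp⟩
  sup U V := gen {p | p ∈ U ∨ p ∈ V}
  le_sup_left U V p hp q hq := ⟨q, le_rfl, q, Or.inl (mem_lower hq hp), le_rfl⟩
  le_sup_right U V p hp q hq := ⟨q, le_rfl, q, Or.inr (mem_lower hq hp), le_rfl⟩
  sup_le U V W h1 h2 p hp := mem_reg fun q hq => by
    obtain ⟨r, hr, a, ha, hra⟩ := hp q hq
    refine ⟨r, hr, ?_⟩
    rcases ha with ha | ha
    · exact h1 r (mem_lower hra ha)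
    · exact h2 r (mem_lower hra ha)
  compl U := ⟨{p | ∀ q, q ≤ p → ¬ q ∈ U}, fun p hp q hq r hr => hp r (hr.trans hq),
    fun p hp q hq hqU => by
      obtain ⟨r, hr, hr'⟩ := hp q hq
      exact hr' r le_rfl (mem_lower hr hqU)⟩
  sdiff U V := ⟨{p | p ∈ U ∧ ∀ q, q ≤ p → ¬ q ∈ V},
    fun p hp q hq => ⟨mem_lower hq hp.1, fun r hr => hp.2 r (hr.trans hq)⟩,
    fun p hp => ⟨mem_reg fun q hq => (hp q hq).imp fun r hr => ⟨hr.1, hr.2.1⟩, fun q hq hqU => by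
      obtain ⟨r, hr, hr'⟩ := hp q hq
      exact hr'.2 r le_rfl (mem_lower hr hqU)⟩⟩
  himp U V := ⟨{p | ∀ q, q ≤ p → q ∈ U → q ∈ V}, fun p hp q hq r hr => hp r (hr.trans hq),
    fun p hp q hq hqU => mem_reg fun r hr => by
      obtain ⟨t, ht, ht'⟩ := hp r (hr.trans hq)
      exact ⟨t, ht, ht' t le_rfl (mem_lower (ht.trans hr) hqU)⟩⟩
  le_sup_inf U V W p hp := by
    intro q hq
    by_cases h : ∃ r, r ≤ q ∧ r ∈ U
    · obtain ⟨r, hr, hrU⟩ := h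
      exact ⟨r, hr, r, Or.inl hrU, le_rfl⟩
    · obtain ⟨r, hr, a, ha, hra⟩ := hp.1 q hq
      rcases ha with ha | ha
      · exact absurd ⟨r, hr, mem_lower hra ha⟩ h
      · obtain ⟨t, ht, b, hb, htb⟩ := hp.2 r (hr.trans hq)
        rcases hb with hb | hb
        · exact absurd ⟨t, ht.trans hr, mem_lower htb hb⟩ h
        · exact ⟨t, ht.trans hr, t, Or.inr ⟨mem_lower (ht.trans hra) ha, mem_lower htb hb⟩, le_rfl⟩
  inf_compl_le_bot U p hp := hp.2 p le_rfl hp.1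
  top_le_sup_compl U p _ q hq := by
    by_cases h : ∃ r, r ≤ q ∧ r ∈ U
    · obtain ⟨r, hr, hrU⟩ := h
      exact ⟨r, hr, r, Or.inl hrU, le_rfl⟩
    · refine ⟨q, le_rfl, q, Or.inr fun r hr hrU => h ⟨r, hr, hrU⟩, le_rfl⟩
  sdiff_eq U V := rfl
  himp_eq U V := by
    apply ext'
    intro p
    constructor
    · intro hp q hq
      by_cases h : ∃ r, r ≤ q ∧ r ∈ U
      · obtain ⟨r, hr, hrU⟩ := h
        exact ⟨r, hr, r, Or.inl (hp r (hr.trans hq) hrU), le_rfl⟩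
      · exact ⟨q, le_rfl, q, Or.inr fun r hr hrU => h ⟨r, hr, hrU⟩, le_rfl⟩
    · intro hp q hq hqU
      refine mem_reg fun r hr => ?_
      obtain ⟨t, ht, a, ha, hta⟩ := hp r (hr.trans hq)
      rcases ha with ha | ha
      · exact ⟨t, ht, mem_lower hta ha⟩
      · exact absurd (mem_lower (ht.trans hr) hqU) (ha t hta)

theorem mem_top (p : P) : p ∈ (⊤ : RO P) := trivial

theorem not_mem_bot (p : P) : ¬ p ∈ (⊥ : RO P) := fun h => h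

theorem mem_inf {U V : RO P} {p : P} : p ∈ U ⊓ V ↔ p ∈ U ∧ p ∈ V := Iff.rfl

theorem mem_compl {U : RO P} {p : P} : p ∈ Uᶜ ↔ ∀ q, q ≤ p → ¬ q ∈ U := Iff.rfl

theorem mem_himp {U V : RO P} {p : P} : p ∈ U ⇨ V ↔ ∀ q, q ≤ p → q ∈ U → q ∈ V := Iff.rfl

theorem mem_sInf {A : Set (RO P)} {p : P} : p ∈ sInf A ↔ ∀ U ∈ A, p ∈ U := Iff.rfl

theorem mem_iInf {ι : Sort*} {f : ι → RO P} {p : P} : p ∈ (⨅ i, f i) ↔ ∀ i, p ∈ f i := by
  constructor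
  · intro h i
    exact h (f i) ⟨i, rfl⟩
  · rintro h _ ⟨i, rfl⟩
    exact h i

theorem mem_sSup {A : Set (RO P)} {p : P} :
    p ∈ sSup A ↔ ∀ q, q ≤ p → ∃ r, r ≤ q ∧ ∃ U ∈ A, r ∈ U := by
  constructor
  · intro h q hq
    obtain ⟨r, hr, a, ⟨U, hU, haU⟩, hra⟩ := h q hq
    exact ⟨r, hr, U, hU, mem_lower hra haU⟩
  · intro h q hq
    obtain ⟨r, hr, U, hU, hrU⟩ := h q hq
    exact ⟨r, hr, r, ⟨U, hU, hrU⟩, le_rfl⟩

theorem mem_iSup {ι : Sort*} {f : ι → RO P} {p : P} :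
    p ∈ (⨆ i, f i) ↔ ∀ q, q ≤ p → ∃ r, r ≤ q ∧ ∃ i, r ∈ f i := by
  rw [iSup, mem_sSup]
  simp

theorem mem_sup {U V : RO P} {p : P} :
    p ∈ U ⊔ V ↔ ∀ q, q ≤ p → ∃ r, r ≤ q ∧ (r ∈ U ∨ r ∈ V) := by
  constructor
  · intro h q hq
    obtain ⟨r, hr, a, ha, hra⟩ := h q hq
    exact ⟨r, hr, ha.imp (mem_lower hra) (mem_lower hra)⟩
  · intro h q hq
    obtain ⟨r, hr, hr'⟩ := h q hq
    exact ⟨r, hr, r, hr', le_rfl⟩

theorem ne_bot_iff {U : RO P} : U ≠ ⊥ ↔ ∃ p, p ∈ U := by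
  constructor
  · intro h
    by_contra hcon
    push Not at hcon
    exact h (ext' fun p => ⟨fun hp => (hcon p hp).elim, fun hp => (not_mem_bot p hp).elim⟩)
  · rintro ⟨p, hp⟩ rfl
    exact not_mem_bot p hp

end RO

end Pool.Agent.Helper33.HM
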