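import Pool.Agent.Helper33.HM.RawOrder
import Pool.Agent.Helper33.HM.RO
import Pool.Agent.Helper33.HM.Names

/-!
# The poset of conditions, restrictions, the subalgebras and the Hechler reals
-/

set_option autoImplicit false
set_option linter.unusedSectionVars false

namespace Pool.Agent.Helper33.HM

universe u

namespace Raw

variable {I : Type u} [LinearOrder I]

theorem res_facts (p : Raw I) (hp : p.WF) (i : I) :
    (p.res i).WF ∧ (p.res i).lt i ∧ (∀ j, p.lt j → (p.res i).lt j) := by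
  induction p with
  | one => exact ⟨trivial, trivial, fun _ _ => trivial⟩
  | cons p j s m f v ih _ =>
    by_cases h : j < i
    · rw [res, if_pos h]
      exact ⟨hp, h, fun _ hj => hj⟩
    · rw [res, if_neg h]
      obtain ⟨h1, h2, h3⟩ := ih hp.1
      exact ⟨h1, h2, fun k hk => h3 k (lt_mono (le_of_lt hk) hp.2.1)⟩

theorem glue_facts (i : I) (q p : Raw I) (hq : q.WF) (hqi : q.lt i) (hp : p.WF) :
    (glue i q p).WF ∧ (∀ j, i ≤ j → p.lt j → (glue i q p).lt j) := by
  induction p with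
  | one => exact ⟨hq, fun j hj _ => lt_mono hj hqi⟩
  | cons p j s m f v ih _ =>
    by_cases h : j < i
    · rw [glue, if_pos h]
      exact ⟨hq, fun j hj _ => lt_mono hj hqi⟩
    · rw [glue, if_neg h]
      obtain ⟨h1, h2⟩ := ih hp.1
      exact ⟨⟨h1, h2 j (not_lt.1 h) hp.2.1, hp.2.2⟩, fun k hk hk' => hk'⟩

end Raw

/-- Conditions of the iteration along `I`. -/
def Cond (I : Type u) [LinearOrder I] : Type u := {p : Raw I // p.WF}

namespace Cond

variable {I : Type u} [LinearOrder I]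

/-- All indices of the condition are less than `i`. -/
def lt (p : Cond I) (i : I) : Prop := p.1.lt i

/-- The trivial condition. -/
def one : Cond I := ⟨.one, trivial⟩

/-- Restriction to the indices less than `i`. -/
noncomputable def res (p : Cond I) (i : I) : Cond I := ⟨p.1.res i, (Raw.res_facts p.1 p.2 i).1⟩

/-- The condition which agrees with `q` below `i` and with `p` from `i` on. -/
noncomputable def glue (i : I) (q p : Cond I) (hq : q.lt i) : Cond I :=
  ⟨Raw.glue i q.1 p.1, (Raw.glue_facts i q.1 p.1 q.2 hq p.2).1⟩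

/-- `p` with a new last entry at `i`. -/
def cons (p : Cond I) (i : I) (hp : p.lt i) (s : List ℕ) (m : ℕ) (f : ℕ → ℕ → ℕ → Cond I)
    (hf : ∀ l n k, (f l n k).lt i) (v : ℕ → ℕ → ℕ → ℕ) : Cond I :=
  ⟨.cons p.1 i s m (fun l n k => (f l n k).1) v, p.2, hp, fun l n k => ⟨(f l n k).2, hf l n k⟩⟩

/-- `Ent q i p s m f v`: the entry of `q` at `i` has the stem `s` and the names
`(f 0, v 0), …, (f (m - 1), v (m - 1))`, and `p` is the restriction of `q` to `i`. -/
def Ent (q : Cond I) (i : I) (p : Cond I) (s : List ℕ) (m : ℕ) (f : ℕ → ℕ → ℕ → Cond I)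
    (v : ℕ → ℕ → ℕ → ℕ) : Prop :=
  Raw.Entry q.1 i p.1 s m (fun l n k => (f l n k).1) v

variable [WellFoundedLT I]

instance : Preorder (Cond I) where
  le p q := Raw.le p.1 q.1
  le_refl p := Raw.le_refl p.1
  le_trans p q r h1 h2 := Raw.le_trans p.2 q.2 r.2 h1 h2

theorem le_def {p q : Cond I} : p ≤ q ↔ Raw.le p.1 q.1 := Iff.rfl

/-- `Frc i p c u N`: the condition `p` of length `i` forces that the value coded by `(c, u)` is at
most `N` or undefined. -/
def Frc (i : I) (p : Cond I) (c : ℕ → Cond I) (u : ℕ → ℕ) (N : ℕ) : Prop :=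
  ∀ q : Cond I, q.lt i → q ≤ p → ∃ r : Cond I, r.lt i ∧ r ≤ q ∧
    ((∃ k, u k ≤ N ∧ r ≤ c k) ∨ ∀ t : Cond I, t.lt i → t ≤ r → ∀ k, ¬ t ≤ c k)

/-- The order in terms of entries. -/
theorem le_iff {p q : Cond I} : p ≤ q ↔ ∀ i q' t m' g w, Ent q i q' t m' g w →
    ∃ p' s m f v, Ent p i p' s m f v ∧ t <+: s ∧ (∀ l < m', ∃ l' < m, f l' = g l ∧ v l' = w l) ∧
      ∀ (n : ℕ) (h : n < s.length), t.length ≤ n → ∀ l < m', Frc i p' (g l n) (w l n) s[n] := by
  have key : ∀ {i : I} {a : Cond I} (_ : a.lt i) {c : ℕ → Cond I} (_ : ∀ k, (c k).lt i)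
      (u : ℕ → ℕ) (N : ℕ), Raw.G i a.1 (fun k => (c k).1) u N ↔ Frc i a c u N := by
    intro i a ha c hc u N
    rw [Raw.G_iff a.2 ha (fun k => ⟨(c k).2, hc k⟩)]
    constructor
    · intro h q hq hqa
      obtain ⟨r, hr, hri, hrq, h'⟩ := h q.1 q.2 hq hqa
      refine ⟨⟨r, hr⟩, hri, hrq, ?_⟩
      rcases h' with h' | h'
      · exact Or.inl h'
      · exact Or.inr fun t ht htr k htk => h' t.1 t.2 ht htr k htk
    · intro h q hq hqi hqa
      obtain ⟨r, hri, hrq, h'⟩ := h ⟨q, hq⟩ hqi hqa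
      refine ⟨r.1, r.2, hri, hrq, ?_⟩
      rcases h' with h' | h'
      · exact Or.inl h'
      · exact Or.inr fun t ht hti htr k htk => h' ⟨t, ht⟩ hti htr k htk
  constructor
  · intro h i q' t m' g w he
    obtain ⟨p', s, m, f, v, h1, h2, h3, h4⟩ := h i q'.1 t m' _ w he
    have hp := Raw.Entry.facts p.2 h1
    have hq := Raw.Entry.facts q.2 he
    refine ⟨⟨p', hp.1⟩, s, m, fun l n k => ⟨f l n k, (hp.2.2.1 l n k).1⟩, v, h1, h2, ?_, ?_⟩
    · intro l hl
      obtain ⟨l', hl', e, e'⟩ := h3 l hl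
      refine ⟨l', hl', ?_, e'⟩
      funext n k
      apply Subtype.ext
      exact congrFun (congrFun e n) k
    · intro n hn hn' l hl
      exact (key (a := ⟨p', hp.1⟩) hp.2.1 (fun k => (hq.2.2.1 l n k).2) _ _).1 (h4 n hn hn' l hl)
  · intro h i q' t m' g w he
    have hq := Raw.Entry.facts q.2 he
    obtain ⟨p', s, m, f, v, h1, h2, h3, h4⟩ := h i ⟨q', hq.1⟩ t m'
      (fun l n k => ⟨g l n k, (hq.2.2.1 l n k).1⟩) w he
    have hp := Raw.Entry.facts p.2 h1
    refine ⟨p'.1, s, m, _, v, h1, h2, ?_, ?_⟩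
    · intro l hl
      obtain ⟨l', hl', e, e'⟩ := h3 l hl
      refine ⟨l', hl', ?_, e'⟩
      funext n k
      exact congrArg Subtype.val (congrFun (congrFun e n) k)
    · intro n hn hn' l hl
      exact (key hp.2.1 (c := fun k => ⟨g l n k, (hq.2.2.1 l n k).1⟩)
        (fun k => (hq.2.2.1 l n k).2) _ _).2 (h4 n hn hn' l hl)

end Cond

section Sub

variable {I : Type u} [LinearOrder I] [WellFoundedLT I]

/-- The elements of the algebra which depend only on the conditions of length `i`. -/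
def SubI (i : I) : Set (RO (Cond I)) := {U | ∀ p : Cond I, p ∈ U ↔ p.res i ∈ U}

/-- The name of the Hechler real at `i`: `hech i n k` is the value of `d_i(n) ≤ k`. -/
def hech (i : I) (n k : ℕ) : RO (Cond I) :=
  RO.gen {p : Cond I | ∃ p' s m f v, Cond.Ent p i p' s m f v ∧ ∃ h : n < s.length, s[n] ≤ k}

end Sub

end Pool.Agent.Helper33.HM
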