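import Mathlib

/-!
# A third order sentence and its value in a complete Boolean algebra

For a complete Boolean algebra `B` a `B`-name for a subset of `ℕ` (a point of the Cantor space
`2^ω`) is a function `x : ℕ → B`; a `B`-name for a set of points is an extensional function
`E : (ℕ → B) → B`; a `B`-name for a set of finite words is a function `T : List Bool → B`.
For `B = Prop` these are the actual objects, and the value of a sentence is its truth.
-/

set_option autoImplicit false

namespace Pool.Agent.Helper33.HM

universe u

section Defs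

variable {B : Type u} [CompleteBooleanAlgebra B]

/-- The value of an equivalence. -/
def iffV (a b : B) : B := (a ⇨ b) ⊓ (b ⇨ a)

/-- The value of: `x` extends the word `σ`. -/
def cyl (x : ℕ → B) (σ : List Bool) : B :=
  ⨅ i : ℕ, ⨅ h : i < σ.length, if σ[i] then x i else (x i)ᶜ

/-- The value of: `T` is a pruned tree, i.e. the set of all words `σ` such that the cylinder `[σ]`
meets `C`, for some closed set `C` of the Cantor space. -/
def pruned (T : List Bool → B) : B :=
  ⨅ σ : List Bool, iffV (T σ) (T (σ ++ [false]) ⊔ T (σ ++ [true]))

/-- The value of: the point `x` belongs to the closed set coded by `T`. -/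
def memV (x : ℕ → B) (T : List Bool → B) : B :=
  ⨅ σ : List Bool, cyl x σ ⇨ T σ

/-- The value of: the closed set coded by `T` has measure zero, i.e. for every `k` there is `n`
such that at most `2^n / 2^k` words of length `n` belong to `T`. -/
def nullV (T : List Bool → B) : B :=
  ⨅ k : ℕ, ⨆ n : ℕ, ⨆ G : Finset (List Bool), ⨆ _ : G.card * 2 ^ k ≤ 2 ^ n,
    ⨅ σ : List Bool, ⨅ _ : σ.length = n ∧ σ ∉ G, (T σ)ᶜ

/-- The code of the part of the closed set coded by `T` in the cylinder `[σ]`. -/
def restr (T : List Bool → B) (σ τ : List Bool) : B :=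
  if τ <+: σ then T σ else if σ <+: τ then T τ else ⊥

/-- The value of: `P` is a pruned tree which codes a closed set all of whose nonempty relatively
open subsets have positive measure. -/
def fat (P : List Bool → B) : B :=
  pruned P ⊓ ⨅ σ : List Bool, P σ ⇨ (nullV (restr P σ))ᶜ

/-- The value of: (for the closed sets coded by `F` and `P`) `F ∩ P` is nowhere dense in `P`. -/
def nwdV (F P : List Bool → B) : B :=
  ⨅ σ : List Bool, P σ ⇨ ⨆ τ : List Bool, ⨆ _ : σ <+: τ, P τ ⊓ (F τ)ᶜ

/-- The value of: the set `E` is covered by the closed sets coded by `F 0, F 1, …`. -/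
def covV (E : (ℕ → B) → B) (F : ℕ → List Bool → B) : B :=
  ⨅ x : ℕ → B, E x ⇨ ⨆ k : ℕ, memV x (F k)

/-- `E` is a name for a set of points: it respects the equality of names of points. -/
def IsSetName (E : (ℕ → B) → B) : Prop :=
  ∀ x y : ℕ → B, (⨅ n : ℕ, iffV (x n) (y n)) ⊓ E x ≤ E y

/-- The value of: for every sequence `P 0, P 1, …` of fat closed sets there are closed sets
`F 0, F 1, …` which cover `E`, each of them nowhere dense in each `P n`. -/
def fatPM (E : (ℕ → B) → B) : B :=
  ⨅ P : ℕ → List Bool → B, (⨅ n : ℕ, fat (P n)) ⇨
    ⨆ F : ℕ → List Bool → B,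
      (⨅ k : ℕ, pruned (F k)) ⊓ covV E F ⊓ ⨅ k : ℕ, ⨅ n : ℕ, nwdV (F k) (P n)

/-- The value of: `E` is covered by countably many closed sets of measure zero. -/
def nullCov (E : (ℕ → B) → B) : B :=
  ⨆ F : ℕ → List Bool → B, (⨅ k : ℕ, pruned (F k) ⊓ nullV (F k)) ⊓ covV E F

end Defs

/-- The value in `B` of the sentence: every set `E` of points of the Cantor space such that for
every sequence of fat closed sets there are countably many closed sets which cover `E` and are
nowhere dense in each of the given fat sets, is covered by countably many closed sets of measure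
zero. -/
def Val (B : Type u) [CompleteBooleanAlgebra B] : B :=
  ⨅ E : (ℕ → B) → B, ⨅ _ : IsSetName E, fatPM E ⇨ nullCov E

end Pool.Agent.Helper33.HM
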