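import Pool.Agent.Helper33.HM.Val
import Pool.Agent.Helper26.PN.Defs

/-!
# The statement for the unit interval
-/

set_option autoImplicit false

namespace Pool.Agent.Helper33.HM

open MeasureTheory Set

/-- A closed subset of the unit interval all of whose nonempty relatively open parts have positive
measure. -/
def FatR (P : Set ℝ) : Prop :=
  IsClosed P ∧ P ⊆ Icc 0 1 ∧ ∀ U : Set ℝ, IsOpen U → (P ∩ U).Nonempty → volume (P ∩ U) ≠ 0

/-- The statement for the unit interval. -/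
def RStmt : Prop :=
  ∀ E : Set ℝ, E ⊆ Icc 0 1 →
    (∀ P : ℕ → Set ℝ, (∀ n, FatR (P n)) → ∃ F : ℕ → Set ℝ, (∀ k, IsClosed (F k)) ∧
      E ⊆ ⋃ k, F k ∧ ∀ k n, ∀ U : Set ℝ, IsOpen U → (P n ∩ U).Nonempty → ¬ (P n ∩ U ⊆ F k)) →
    ∃ H : ℕ → Set ℝ, (∀ m, IsClosed (H m) ∧ volume (H m) = 0) ∧ E ⊆ ⋃ m, H m

end Pool.Agent.Helper33.HM
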