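import Pool.Agent.Helper59.HM.Compat
import Pool.Agent.Helper68.HM.Delta
import Pool.Agent.Helper84.HM.Res

/-!
# The countable chain condition for the iteration
-/

set_option autoImplicit false
set_option linter.unusedSectionVars false

namespace Pool.Agent.Helper33.HM

universe u v

namespace Cond

variable {I : Type u} [LinearOrder I]

theorem h33_supp (p : Cond I) : ∃ F : Finset I, ∀ i q s m f v, Ent p i q s m f v → i ∈ F := by
  classical
  obtain ⟨p, hp⟩ := p
  suffices h : ∃ F : Finset I, ∀ i q s m f v, Raw.Entry p i q s m f v → i ∈ F by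
    obtain ⟨F, hF⟩ := h
    exact ⟨F, fun i q s m f v h => hF i _ _ _ _ _ h⟩
  clear hp
  induction p with
  | one => exact ⟨∅, fun _ _ _ _ _ _ h => h.elim⟩
  | cons p j s m f v ih _ =>
    obtain ⟨F, hF⟩ := ih
    refine ⟨insert j F, ?_⟩
    intro i q s' m' f' v' h
    rcases h with h | h
    · rw [h.1]; exact Finset.mem_insert_self _ _
    · exact Finset.mem_insert_of_mem (hF _ _ _ _ _ _ h)

variable [WellFoundedLT I]

theorem cond_ccc (A : Set (Cond I))
    (h : ∀ p ∈ A, ∀ q ∈ A, p ≠ q → ¬ ∃ r : Cond I, r ≤ p ∧ r ≤ q) : A.Countable := by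
  classical
  by_contra hA
  choose F hF using fun p : A => h33_supp p.1
  have hun : ¬ (Set.univ : Set A).Countable := by
    rw [Set.countable_univ_iff]
    exact hA
  obtain ⟨J, hJ, R, hR⟩ := exists_delta F hun
  -- the stems on the root
  let st : A → R → List ℕ := fun p i =>
    if h : ∃ s q m f v, Ent p.1 i.1 q s m f v then h.choose else []
  have hst : ∀ (p : A) (i : R) q s m f v, Ent p.1 i.1 q s m f v → st p i = s := by
    intro p i q s m f v he
    have h : ∃ s q m f v, Ent p.1 i.1 q s m f v := ⟨s, q, m, f, v, he⟩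
    obtain ⟨q', m', f', v', he'⟩ := h.choose_spec
    simp only [st, dif_pos h]
    exact (ent_unique he' he).2.1
  apply hJ
  have hinj : Set.InjOn st J := by
    intro p hp q hq hpq
    by_contra hne
    have hne' : p.1 ≠ q.1 := fun h => hne (Subtype.ext h)
    refine h p.1 p.2 q.1 q.2 hne' (exists_common ?_)
    intro i p' s m f v q' t m' g w he he'
    have hi : i ∈ R := by
      rw [← hR p hp q hq hne]
      exact Finset.mem_inter.2 ⟨hF p _ _ _ _ _ _ he, hF q _ _ _ _ _ _ he'⟩
    rw [← hst p ⟨i, hi⟩ _ _ _ _ _ he, ← hst q ⟨i, hi⟩ _ _ _ _ _ he', hpq]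
  exact Set.MapsTo.countable_of_injOn (t := Set.univ) (fun _ _ => trivial) hinj
    (Set.countable_univ)

end Cond

theorem ro_ccc {P : Type u} [Preorder P] (h : ∀ A : Set P,
    (∀ p ∈ A, ∀ q ∈ A, p ≠ q → ¬ ∃ r : P, r ≤ p ∧ r ≤ q) → A.Countable) : CCC (RO P) := by
  classical
  intro t ht0 ht
  choose p hp using fun U : t => RO.ne_bot_iff.1 (ht0 U.1 U.2)
  have hinj : Function.Injective p := by
    intro U V hUV
    by_contra hne
    have hd : Disjoint U.1 V.1 := ht U.2 V.2 (fun h => hne (Subtype.ext h))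
    have : p U ∈ (U.1 ⊓ V.1 : RO P) := RO.mem_inf.2 ⟨hp U, hUV ▸ hp V⟩
    rw [disjoint_iff.1 hd] at this
    exact RO.not_mem_bot _ this
  have hc : (Set.range p).Countable := by
    apply h
    rintro _ ⟨U, rfl⟩ _ ⟨V, rfl⟩ hne ⟨r, hrU, hrV⟩
    have hUV : (U : RO P) ≠ V := fun h => hne (congrArg p (Subtype.ext h))
    have hd : Disjoint U.1 V.1 := ht U.2 V.2 hUV
    have : r ∈ (U.1 ⊓ V.1 : RO P) :=
      RO.mem_inf.2 ⟨RO.mem_lower hrU (hp U), RO.mem_lower hrV (hp V)⟩
    rw [disjoint_iff.1 hd] at this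
    exact RO.not_mem_bot _ this
  have : Countable t := by
    have hcr : Countable (Set.range p) := hc
    exact (Equiv.ofInjective p hinj).injective.countable
  exact this

end Pool.Agent.Helper33.HM
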