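import Pool.Agent.Helper33.HM.Val

/-!
# Complete subalgebras, projections, partitions
-/

set_option autoImplicit false
set_option linter.unusedSectionVars false

namespace Pool.Agent.Helper33.HM

universe u

variable {B : Type u} [CompleteBooleanAlgebra B]

/-- `S` is a complete subalgebra. -/
structure IsSub (S : Set B) : Prop where
  compl_mem : ∀ a ∈ S, aᶜ ∈ S
  sSup_mem : ∀ t : Set B, t ⊆ S → sSup t ∈ S

/-- Countable chain condition. -/
def CCC (B : Type u) [CompleteBooleanAlgebra B] : Prop :=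
  ∀ t : Set B, (∀ a ∈ t, a ≠ ⊥) → t.PairwiseDisjoint id → t.Countable

/-- The least element of `S` above `b`. -/
def proj (S : Set B) (b : B) : B := sInf {a | a ∈ S ∧ b ≤ a}

namespace IsSub

variable {S : Set B} (hS : IsSub S)
include hS

theorem sInf_mem (t : Set B) (ht : t ⊆ S) : sInf t ∈ S := by
  have h : sInf t = (sSup (compl '' t))ᶜ := by
    rw [compl_sSup', Set.image_image]
    simp
  rw [h]
  refine hS.compl_mem _ (hS.sSup_mem _ ?_)
  rintro _ ⟨a, ha, rfl⟩
  exact hS.compl_mem _ (ht ha)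

theorem bot_mem : (⊥ : B) ∈ S := by
  have := hS.sSup_mem ∅ (Set.empty_subset _)
  simpa using this

theorem top_mem : (⊤ : B) ∈ S := by
  have := hS.compl_mem _ hS.bot_mem
  simpa using this

theorem iSup_mem {ι : Sort*} {f : ι → B} (hf : ∀ i, f i ∈ S) : (⨆ i, f i) ∈ S := by
  refine hS.sSup_mem _ ?_
  rintro _ ⟨i, rfl⟩
  exact hf i

theorem iInf_mem {ι : Sort*} {f : ι → B} (hf : ∀ i, f i ∈ S) : (⨅ i, f i) ∈ S := by
  refine hS.sInf_mem _ ?_
  rintro _ ⟨i, rfl⟩
  exact hf i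

theorem sup_mem {a b : B} (ha : a ∈ S) (hb : b ∈ S) : a ⊔ b ∈ S := by
  rw [← sSup_pair]
  refine hS.sSup_mem _ ?_
  rintro c (rfl | rfl)
  · exact ha
  · exact hb

theorem inf_mem {a b : B} (ha : a ∈ S) (hb : b ∈ S) : a ⊓ b ∈ S := by
  rw [← sInf_pair]
  refine hS.sInf_mem _ ?_
  rintro c (rfl | rfl)
  · exact ha
  · exact hb

theorem himp_mem {a b : B} (ha : a ∈ S) (hb : b ∈ S) : a ⇨ b ∈ S := by
  rw [himp_eq]
  exact hS.sup_mem hb (hS.compl_mem _ ha)

theorem ite_mem {p : Prop} [Decidable p] {a b : B} (ha : a ∈ S) (hb : b ∈ S) :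
    (if p then a else b) ∈ S := by
  split
  · exact ha
  · exact hb

theorem proj_mem (b : B) : proj S b ∈ S := hS.sInf_mem _ fun _ ha => ha.1

theorem proj_inf {a : B} (ha : a ∈ S) (b : B) : proj S (a ⊓ b) = a ⊓ proj S b := by
  apply le_antisymm
  · refine le_inf ?_ ?_
    · exact sInf_le ⟨ha, inf_le_left⟩
    · exact sInf_le ⟨hS.proj_mem b, inf_le_right.trans (le_sInf fun c hc => hc.2)⟩
  · have h : b ≤ aᶜ ⊔ proj S (a ⊓ b) := by
      have h1 : a ⊓ b ≤ proj S (a ⊓ b) := le_sInf fun c hc => hc.2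
      calc b ≤ aᶜ ⊔ (a ⊓ b) := by
            rw [sup_inf_left, compl_sup_eq_top, top_inf_eq]
            exact le_sup_right
        _ ≤ _ := sup_le_sup_left h1 _
    have h2 : proj S b ≤ aᶜ ⊔ proj S (a ⊓ b) :=
      sInf_le ⟨hS.sup_mem (hS.compl_mem _ ha) (hS.proj_mem _), h⟩
    calc a ⊓ proj S b ≤ a ⊓ (aᶜ ⊔ proj S (a ⊓ b)) := inf_le_inf_left _ h2
      _ ≤ _ := by
        rw [inf_sup_left, inf_compl_eq_bot, bot_sup_eq]
        exact inf_le_right

theorem proj_iSup {ι : Sort*} (f : ι → B) : proj S (⨆ i, f i) = ⨆ i, proj S (f i) := by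
  apply le_antisymm
  · exact sInf_le ⟨hS.iSup_mem fun i => hS.proj_mem _,
      iSup_mono fun i => le_sInf fun c hc => hc.2⟩
  · refine iSup_le fun i => le_sInf fun c hc => sInf_le ⟨hc.1, (le_iSup f i).trans hc.2⟩

theorem proj_sup (a b : B) : proj S (a ⊔ b) = proj S a ⊔ proj S b := by
  have h := hS.proj_iSup (fun i : Bool => bif i then a else b)
  rw [iSup_bool_eq, iSup_bool_eq] at h
  exact h

theorem proj_le {a b : B} (ha : a ∈ S) (h : b ≤ a) : proj S b ≤ a := sInf_le ⟨ha, h⟩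

theorem proj_le_iff {a b : B} (ha : a ∈ S) : proj S b ≤ a ↔ b ≤ a :=
  ⟨fun h => le_trans (le_sInf fun _ hc => hc.2) h, fun h => hS.proj_le ha h⟩

theorem proj_of_mem {a : B} (ha : a ∈ S) : proj S a = a :=
  le_antisymm (hS.proj_le ha le_rfl) (le_sInf fun _ hc => hc.2)

theorem iffV_mem {a b : B} (ha : a ∈ S) (hb : b ∈ S) : iffV a b ∈ S :=
  hS.inf_mem (hS.himp_mem ha hb) (hS.himp_mem hb ha)

end IsSub

theorem le_proj (S : Set B) (b : B) : b ≤ proj S b := le_sInf fun _ hc => hc.2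

theorem proj_mono (S : Set B) {a b : B} (h : a ≤ b) : proj S a ≤ proj S b :=
  le_sInf fun _ hc => sInf_le ⟨hc.1, h.trans hc.2⟩

theorem proj_ne_bot (S : Set B) {b : B} (hb : b ≠ ⊥) : proj S b ≠ ⊥ := fun h =>
  hb (le_bot_iff.1 (h ▸ le_proj S b))

theorem isSub_univ : IsSub (Set.univ : Set B) := ⟨fun _ _ => trivial, fun _ _ => trivial⟩

/-- A nonzero element below a supremum meets one of the terms. -/
theorem exists_inf_ne_bot {ι : Sort*} {f : ι → B} {b : B} (hb : b ≠ ⊥) (h : b ≤ ⨆ i, f i) :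
    ∃ i, b ⊓ f i ≠ ⊥ := by
  by_contra hcon
  push Not at hcon
  apply hb
  have h1 : b = b ⊓ ⨆ i, f i := (inf_eq_left.2 h).symm
  rw [h1, inf_iSup_eq]
  simp [hcon]

/-- To prove `a ≤ b` it suffices to show that every nonzero element below `a` meets `b`. -/
theorem le_of_forall_meets {a b : B} (h : ∀ c, c ≠ ⊥ → c ≤ a → c ⊓ b ≠ ⊥) : a ≤ b := by
  by_contra hcon
  have h1 : a ⊓ bᶜ ≠ ⊥ := fun h2 => hcon (by
    rwa [← disjoint_iff, disjoint_compl_right_iff] at h2)
  refine h (a ⊓ bᶜ) h1 inf_le_left ?_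
  rw [inf_assoc, compl_inf_eq_bot, inf_bot_eq]

/-- The same with a dense family: the test elements may be taken in `S`, when `a ∈ S`, `b ∈ S`. -/
theorem le_of_forall_meets_mem {S : Set B} (hS : IsSub S) {a b : B} (ha : a ∈ S) (hb : b ∈ S)
    (h : ∀ c ∈ S, c ≠ ⊥ → c ≤ a → c ⊓ b ≠ ⊥) : a ≤ b := by
  by_contra hcon
  have h1 : a ⊓ bᶜ ≠ ⊥ := fun h2 => hcon (by
    rwa [← disjoint_iff, disjoint_compl_right_iff] at h2)
  refine h (a ⊓ bᶜ) (hS.inf_mem ha (hS.compl_mem _ hb)) h1 inf_le_left ?_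
  rw [inf_assoc, compl_inf_eq_bot, inf_bot_eq]

/-- Countable partitions into elements of a dense set. -/
theorem exists_partition (hc : CCC B) {S : Set B} (hS : IsSub S) (D : B → Prop)
    (hD : ∀ b ∈ S, b ≠ ⊥ → ∃ c ∈ S, c ≠ ⊥ ∧ c ≤ b ∧ D c) (hbot : D ⊥) {e : B} (he : e ∈ S) :
    ∃ a : ℕ → B, (∀ n, a n ∈ S) ∧ (∀ n, D (a n)) ∧ (∀ n, a n ≤ e) ∧
      (∀ m n, m ≠ n → a m ⊓ a n = ⊥) ∧ ⨆ n, a n = e := by
  classical
  -- a maximal disjoint family
  let 𝒞 : Set (Set B) := {t | (∀ a ∈ t, a ∈ S ∧ a ≠ ⊥ ∧ a ≤ e ∧ D a) ∧ t.PairwiseDisjoint id}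
  obtain ⟨t, ht⟩ : ∃ t, Maximal (· ∈ 𝒞) t := by
    refine zorn_subset 𝒞 ?_
    intro c hc1 hc2
    refine ⟨⋃₀ c, ⟨?_, ?_⟩, fun s hs => Set.subset_sUnion_of_mem hs⟩
    · rintro a ⟨s, hs, ha⟩
      exact (hc1 hs).1 a ha
    · exact (Set.pairwiseDisjoint_sUnion hc2.directedOn).2 fun s hs => (hc1 hs).2
  have htC : t ∈ 𝒞 := ht.prop
  have hcount : t.Countable := hc t (fun a ha => (htC.1 a ha).2.1) htC.2
  have hsup : sSup t = e := by
    apply le_antisymm
    · exact sSup_le fun a ha => (htC.1 a ha).2.2.1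
    · by_contra hcon
      have h1 : e ⊓ (sSup t)ᶜ ≠ ⊥ := fun h2 => hcon (by
        rwa [← disjoint_iff, disjoint_compl_right_iff] at h2)
      have h2 : e ⊓ (sSup t)ᶜ ∈ S :=
        hS.inf_mem he (hS.compl_mem _ (hS.sSup_mem _ fun a ha => (htC.1 a ha).1))
      obtain ⟨c, hcS, hc0, hce, hcD⟩ := hD _ h2 h1
      have hct : ∀ a ∈ t, Disjoint c a := by
        intro a ha
        have : a ≤ sSup t := le_sSup ha
        exact (disjoint_compl_left.mono (hce.trans inf_le_right) this)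
      have hins : insert c t ∈ 𝒞 := by
        refine ⟨?_, ?_⟩
        · rintro a (rfl | ha)
          · exact ⟨hcS, hc0, hce.trans inf_le_left, hcD⟩
          · exact htC.1 a ha
        · refine htC.2.insert fun a ha _ => ?_
          exact hct a ha
      have hmem : c ∈ t := ht.le_of_ge hins (Set.subset_insert c t) (Set.mem_insert c t)
      exact hc0 (disjoint_self.1 (hct c hmem))
  -- enumerate
  by_cases hne : t.Nonempty
  · have : Countable t := hcount
    obtain ⟨j, hj⟩ := exists_injective_nat t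
    let a : ℕ → B := fun n => if h : ∃ x : t, j x = n then (h.choose : B) else ⊥
    have haj : ∀ x : t, a (j x) = x := by
      intro x
      have h : ∃ y : t, j y = j x := ⟨x, rfl⟩
      have h2 : h.choose = x := hj h.choose_spec
      simp only [a, dif_pos h, h2]
    have hacase : ∀ n, (∃ x : t, j x = n ∧ a n = x) ∨ a n = ⊥ := by
      intro n
      by_cases h : ∃ x : t, j x = n
      · left
        obtain ⟨x, rfl⟩ := h
        exact ⟨x, rfl, haj x⟩
      · right
        simp only [a, dif_neg h]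
    refine ⟨a, ?_, ?_, ?_, ?_, ?_⟩
    · intro n
      rcases hacase n with ⟨x, _, h⟩ | h
      · rw [h]; exact (htC.1 _ x.2).1
      · rw [h]; exact hS.bot_mem
    · intro n
      rcases hacase n with ⟨x, _, h⟩ | h
      · rw [h]; exact (htC.1 _ x.2).2.2.2
      · rw [h]; exact hbot
    · intro n
      rcases hacase n with ⟨x, _, h⟩ | h
      · rw [h]; exact (htC.1 _ x.2).2.2.1
      · rw [h]; exact bot_le
    · intro m n hmn
      rcases hacase m with ⟨x, hx, h⟩ | h
      · rcases hacase n with ⟨y, hy, h'⟩ | h'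
        · rw [h, h']
          have hxy : (x : B) ≠ y := fun h3 => hmn (by rw [← hx, ← hy, Subtype.ext h3])
          exact disjoint_iff.1 (htC.2 x.2 y.2 hxy)
        · rw [h']; simp
      · rw [h]; simp
    · rw [← hsup]
      apply le_antisymm
      · refine iSup_le fun n => ?_
        rcases hacase n with ⟨x, _, h⟩ | h
        · rw [h]; exact le_sSup x.2
        · rw [h]; exact bot_le
      · refine sSup_le fun x hx => ?_
        exact (haj ⟨x, hx⟩).symm.le.trans (le_iSup a _)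
  · have : t = ∅ := Set.not_nonempty_iff_eq_empty.1 hne
    subst this
    refine ⟨fun _ => ⊥, fun _ => hS.bot_mem, fun _ => hbot, fun _ => bot_le, by simp, ?_⟩
    rw [← hsup]
    simp

end Pool.Agent.Helper33.HM
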