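import Pool.Agent.Helper33.HM.CondCCC
import Pool.Agent.Helper68.HM.SubAlg
import Pool.Agent.Helper68.HM.Small
import Pool.Agent.Helper68.HM.HechFn
import Pool.Agent.Helper30.HM.HechPosOf
import Pool.Agent.Helper12.HM.HechDense

/-!
# The Hechler iteration exists
-/

set_option autoImplicit false

namespace Pool.Agent.Helper33.HM

theorem exists_hiter : Nonempty (HIter (RO (Cond Ordinal.{0}))) := by
  refine ⟨{
    nt := ?_
    ccc := ro_ccc Cond.cond_ccc
    S := SubI
    sub := subI_isSub
    mono := fun β γ h => subI_mono h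
    small := small_sub
    lim := ?_
    top := fun b hb => subI_top hb
    d := hech
    d_fn := hech_fn
    pos := fun β s g hg b hb hb0 => h30_hech_pos_of Cond.cond_ccc β s g hg hb hb0
    dense := fun β b hb hb0 => hech_dense β hb hb0 }⟩
  · intro h
    have h1 : (Cond.one : Cond Ordinal.{0}) ∈ (⊤ : RO (Cond Ordinal.{0})) := RO.mem_top _
    rw [← h] at h1
    exact RO.not_mem_bot _ h1
  · intro δ hδ b hb hb0
    refine subI_limit ⟨0, ?_⟩ ?_ hb hb0
    · exact pos_iff_ne_zero.2 fun h0 => hδ.1 (by rw [h0]; exact isMin_bot)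
    · intro j hj
      exact ⟨Order.succ j, Order.lt_succ j, hδ.2.succ_lt hj⟩

end Pool.Agent.Helper33.HM
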