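import Mathlib

/-!
# Raw conditions of the finite support iteration of Hechler forcing

A condition of the iteration of length `i` is either trivial or `cons p j s m f v`, where `p` is a
condition of the iteration of length `j < i`, `s` is the stem at `j`, and `(f 0, v 0), …,
(f (m - 1), v (m - 1))` are names of functions over the iteration of length `j`. The name
`(f l, v l)` is interpreted as follows: the value at `n` is the least of the numbers `v l n k` for
which the condition `f l n k` belongs to the generic filter; if there is no such `k`, then the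
value is undefined and gives no constraint.
-/

set_option autoImplicit false

namespace Pool.Agent.Helper33.HM

universe u

/-- Raw conditions. -/
inductive Raw (I : Type u) : Type u
  | one : Raw I
  | cons (p : Raw I) (i : I) (s : List ℕ) (m : ℕ) (f : ℕ → ℕ → ℕ → Raw I)
      (v : ℕ → ℕ → ℕ → ℕ) : Raw I

namespace Raw

variable {I : Type u} [LinearOrder I]

/-- All indices of `p` are less than `i` (for a well-formed `p`). -/
def lt : Raw I → I → Prop
  | .one, _ => True
  | .cons _ j _ _ _ _, i => j < i

/-- Well-formed conditions: hereditarily, the indices decrease. -/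
def WF : Raw I → Prop
  | .one => True
  | .cons p i _ _ f _ => p.WF ∧ p.lt i ∧ ∀ l n k, (f l n k).WF ∧ (f l n k).lt i

/-- `Entry q j p s m f v`: the condition `q` has at `j` the stem `s` and the names
`(f 0, v 0), …, (f (m - 1), v (m - 1))`, and `p` is the restriction of `q` to `j`. -/
def Entry : Raw I → I → Raw I → List ℕ → ℕ → (ℕ → ℕ → ℕ → Raw I) → (ℕ → ℕ → ℕ → ℕ) → Prop
  | .one, _, _, _, _, _, _ => False
  | .cons p i s m f v, j, p', s', m', f', v' =>
      (j = i ∧ p' = p ∧ s' = s ∧ m' = m ∧ f' = f ∧ v' = v) ∨ Entry p j p' s' m' f' v'

/-- `forcesLe R i p c u N`, for the order `R` of the conditions of length `i`: the condition `p`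
forces that the value coded by `(c, u)` is at most `N` or undefined. -/
def forcesLe (R : Raw I → Raw I → Prop) (i : I) (p : Raw I) (c : ℕ → Raw I) (u : ℕ → ℕ)
    (N : ℕ) : Prop :=
  ∀ q : Raw I, q.WF → q.lt i → R q p → ∃ r : Raw I, r.WF ∧ r.lt i ∧ R r q ∧
    ((∃ k, u k ≤ N ∧ R r (c k)) ∨ ∀ t : Raw I, t.WF → t.lt i → R t r → ∀ k, ¬ R t (c k))

/-- The order defined from the forcing relation `G j p c u N` at all `j`. -/
def leOf (G : I → Raw I → (ℕ → Raw I) → (ℕ → ℕ) → ℕ → Prop) (p q : Raw I) : Prop :=
  ∀ j q' t m' g w, Entry q j q' t m' g w →
    ∃ p' s m f v, Entry p j p' s m f v ∧ t <+: s ∧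
      (∀ l < m', ∃ l' < m, f l' = g l ∧ v l' = w l) ∧
      ∀ (n : ℕ) (h : n < s.length), t.length ≤ n → ∀ l < m', G j p' (g l n) (w l n) s[n]

variable [WellFoundedLT I]

/-- The forcing relation at `i`: `G i p c u N` means that `p` forces the value coded by `(c, u)` to
be at most `N` or undefined, with respect to the conditions of length `i`. -/
noncomputable def G : I → Raw I → (ℕ → Raw I) → (ℕ → ℕ) → ℕ → Prop :=
  (wellFounded_lt (α := I)).fix fun i IH =>
    forcesLe (leOf fun j p c u N => ∀ h : j < i, IH j h p c u N) i

/-- The order of conditions. -/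
def le (p q : Raw I) : Prop := leOf G p q

/-- The restriction of `p` to the indices less than `i`. -/
noncomputable def res : Raw I → I → Raw I
  | .one, _ => .one
  | .cons p j s m f v, i => if j < i then .cons p j s m f v else res p i

/-- For `q` of length `i`: the condition which agrees with `q` below `i` and with `p` at all
indices `≥ i`. -/
noncomputable def glue (i : I) (q : Raw I) : Raw I → Raw I
  | .one => q
  | .cons p j s m f v => if j < i then q else .cons (glue i q p) j s m f v

end Raw

end Pool.Agent.Helper33.HM
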