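import Pool.Agent.Helper33.HM.Raw

/-!
# The order of raw conditions is a preorder
-/

set_option autoImplicit false
set_option linter.unusedSectionVars false

namespace Pool.Agent.Helper33.HM.Raw

universe u

variable {I : Type u} [LinearOrder I]

theorem lt_mono {p : Raw I} {i j : I} (h : i ≤ j) (hp : p.lt i) : p.lt j := by
  cases p with
  | one => trivial
  | cons p k s m f v => exact lt_of_lt_of_le (show k < i from hp) h

/-- Entries of a well-formed condition of length `i` have index less than `i`, and the tail is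
well-formed of length `j`. -/
theorem Entry.facts {q : Raw I} (hq : q.WF) {j : I} {p : Raw I} {s : List ℕ} {m : ℕ}
    {f : ℕ → ℕ → ℕ → Raw I} {v : ℕ → ℕ → ℕ → ℕ} (h : Entry q j p s m f v) :
    p.WF ∧ p.lt j ∧ (∀ l n k, (f l n k).WF ∧ (f l n k).lt j) ∧ ∀ i, q.lt i → j < i := by
  induction q with
  | one => exact h.elim
  | cons q' i' s' m' f' v' ih _ =>
    obtain ⟨hq', hlt, hf⟩ := hq
    rcases h with ⟨rfl, rfl, rfl, rfl, rfl, rfl⟩ | h
    · exact ⟨hq', hlt, hf, fun i hi => hi⟩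
    · obtain ⟨h1, h2, h3, h4⟩ := ih hq' h
      exact ⟨h1, h2, h3, fun i hi => (h4 i' hlt).trans hi⟩

/-- Entries are unique. -/
theorem Entry.unique {q : Raw I} (hq : q.WF) {j : I} {p p' : Raw I} {s s' : List ℕ} {m m' : ℕ}
    {f f' : ℕ → ℕ → ℕ → Raw I} {v v' : ℕ → ℕ → ℕ → ℕ} (h : Entry q j p s m f v)
    (h' : Entry q j p' s' m' f' v') : p = p' ∧ s = s' ∧ m = m' ∧ f = f' ∧ v = v' := by
  induction q with
  | one => exact h.elim
  | cons q1 i1 s1 m1 f1 v1 ih _ =>
    obtain ⟨hq', hlt, hf⟩ := hq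
    rcases h with ⟨rfl, rfl, rfl, rfl, rfl, rfl⟩ | h
    · rcases h' with ⟨_, rfl, rfl, rfl, rfl, rfl⟩ | h'
      · exact ⟨rfl, rfl, rfl, rfl, rfl⟩
      · exact absurd ((Entry.facts hq' h').2.2.2 _ hlt) (lt_irrefl _)
    · rcases h' with ⟨rfl, rfl, rfl, rfl, rfl, rfl⟩ | h'
      · exact absurd ((Entry.facts hq' h).2.2.2 _ hlt) (lt_irrefl _)
      · exact ih hq' h h'

/-- An entry of a tail is an entry. -/
theorem Entry.of_tail {q : Raw I} {i j : I} {p p' : Raw I} {s s' : List ℕ} {m m' : ℕ}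
    {f f' : ℕ → ℕ → ℕ → Raw I} {v v' : ℕ → ℕ → ℕ → ℕ} (h : Entry q j p s m f v)
    (h' : Entry p i p' s' m' f' v') : Entry q i p' s' m' f' v' := by
  induction q with
  | one => exact h.elim
  | cons q1 i1 s1 m1 f1 v1 ih _ =>
    rcases h with ⟨rfl, rfl, rfl, rfl, rfl, rfl⟩ | h
    · exact Or.inr h'
    · exact Or.inr (ih h)

/-- An entry with index below `j` is an entry of the tail at `j`. -/
theorem Entry.to_tail {q : Raw I} (hq : q.WF) {i j : I} {p p' : Raw I} {s s' : List ℕ} {m m' : ℕ}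
    {f f' : ℕ → ℕ → ℕ → Raw I} {v v' : ℕ → ℕ → ℕ → ℕ} (h : Entry q j p s m f v)
    (h' : Entry q i p' s' m' f' v') (hij : i < j) : Entry p i p' s' m' f' v' := by
  induction q with
  | one => exact h.elim
  | cons q1 i1 s1 m1 f1 v1 ih _ =>
    obtain ⟨hq', hlt, hf⟩ := hq
    rcases h with ⟨rfl, rfl, rfl, rfl, rfl, rfl⟩ | h
    · rcases h' with ⟨rfl, _⟩ | h'
      · exact absurd hij (lt_irrefl _)
      · exact h'
    · rcases h' with ⟨rfl, _⟩ | h'
      · exact absurd (((Entry.facts hq' h).2.2.2 _ hlt).trans hij) (lt_irrefl _)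
      · exact ih hq' h h'

variable [WellFoundedLT I]

theorem G_eq (i : I) : G i = forcesLe (leOf fun j p c u N => ∀ _ : j < i, G j p c u N) i := by
  rw [G, WellFounded.fix_eq]

theorem leOf_restrict {i : I} {p q : Raw I} (hq : q.WF) (hqi : q.lt i) :
    leOf (fun j p c u N => ∀ _ : j < i, G j p c u N) p q ↔ le p q := by
  constructor
  · intro h j q' t m' g w he
    obtain ⟨p', s, m, f, v, h1, h2, h3, h4⟩ := h j q' t m' g w he
    exact ⟨p', s, m, f, v, h1, h2, h3, fun n hn hn' l hl =>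
      h4 n hn hn' l hl ((Entry.facts hq he).2.2.2 i hqi)⟩
  · intro h j q' t m' g w he
    obtain ⟨p', s, m, f, v, h1, h2, h3, h4⟩ := h j q' t m' g w he
    exact ⟨p', s, m, f, v, h1, h2, h3, fun n hn hn' l hl _ => h4 n hn hn' l hl⟩

/-- The forcing relation in terms of the order. -/
theorem G_iff {i : I} {p : Raw I} (hp : p.WF) (hpi : p.lt i) {c : ℕ → Raw I}
    (hc : ∀ k, (c k).WF ∧ (c k).lt i) (u : ℕ → ℕ) (N : ℕ) :
    G i p c u N ↔ forcesLe le i p c u N := by
  rw [G_eq]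
  unfold forcesLe
  constructor
  · intro h q hq hqi hqp
    obtain ⟨r, hr, hri, hrq, h'⟩ := h q hq hqi ((leOf_restrict hp hpi).2 hqp)
    refine ⟨r, hr, hri, (leOf_restrict hq hqi).1 hrq, ?_⟩
    rcases h' with ⟨k, hk, h'⟩ | h'
    · exact Or.inl ⟨k, hk, (leOf_restrict (hc _).1 (hc _).2).1 h'⟩
    · exact Or.inr fun t ht hti htr k htk => h' t ht hti ((leOf_restrict hr hri).2 htr) k
        ((leOf_restrict (hc _).1 (hc _).2).2 htk)
  · intro h q hq hqi hqp
    obtain ⟨r, hr, hri, hrq, h'⟩ := h q hq hqi ((leOf_restrict hp hpi).1 hqp)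
    refine ⟨r, hr, hri, (leOf_restrict hq hqi).2 hrq, ?_⟩
    rcases h' with ⟨k, hk, h'⟩ | h'
    · exact Or.inl ⟨k, hk, (leOf_restrict (hc _).1 (hc _).2).2 h'⟩
    · exact Or.inr fun t ht hti htr k htk => h' t ht hti ((leOf_restrict hr hri).1 htr) k
        ((leOf_restrict (hc _).1 (hc _).2).1 htk)

theorem le_refl (p : Raw I) : le p p := by
  intro j q' t m' g w he
  exact ⟨q', t, m', g, w, he, List.prefix_rfl, fun l hl => ⟨l, hl, rfl, rfl⟩,
    fun n hn hn' => absurd hn (not_lt.2 hn')⟩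

/-- The order passes to tails. -/
theorem le_tail {p q : Raw I} (hp : p.WF) (hq : q.WF) (h : le p q) {j : I} {p' q' : Raw I}
    {s t : List ℕ} {m m' : ℕ} {f g : ℕ → ℕ → ℕ → Raw I} {v w : ℕ → ℕ → ℕ → ℕ}
    (hep : Entry p j p' s m f v) (heq : Entry q j q' t m' g w) : le p' q' := by
  intro i q'' t' m'' g' w' he
  have hij : i < j := (Entry.facts (Entry.facts hq heq).1 he).2.2.2 j (Entry.facts hq heq).2.1
  obtain ⟨p'', s', m3, f', v', h1, h2, h3, h4⟩ := h i q'' t' m'' g' w' (Entry.of_tail heq he)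
  exact ⟨p'', s', m3, f', v', Entry.to_tail hp hep h1 hij, h2, h3, h4⟩

/-- Transitivity, together with monotonicity of the forcing relation. -/
theorem le_trans_aux (i : I) :
    (∀ p q r : Raw I, p.WF → q.WF → r.WF → r.lt i → le p q → le q r → le p r) ∧
    (∀ p q : Raw I, p.WF → q.WF → p.lt i → q.lt i → ∀ c : ℕ → Raw I,
      (∀ k, (c k).WF ∧ (c k).lt i) → ∀ u N, le p q → G i q c u N → G i p c u N) := by
  induction i using WellFoundedLT.induction with
  | ind i ih =>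
    have h1 : ∀ p q r : Raw I, p.WF → q.WF → r.WF → r.lt i → le p q → le q r → le p r := by
      intro p q r hp hq hr hri hpq hqr j r' t m' g w he
      have hji : j < i := (Entry.facts hr he).2.2.2 i hri
      obtain ⟨q', s, m, f, v, hq1, hq2, hq3, hq4⟩ := hqr j r' t m' g w he
      obtain ⟨p', u, m2, h, x, hp1, hp2, hp3, hp4⟩ := hpq j q' s m f v hq1
      refine ⟨p', u, m2, h, x, hp1, hq2.trans hp2, ?_, ?_⟩
      · intro l hl
        obtain ⟨l', hl', e1, e1'⟩ := hq3 l hl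
        obtain ⟨l2, hl2, e2, e2'⟩ := hp3 l' hl'
        exact ⟨l2, hl2, e2.trans e1, e2'.trans e1'⟩
      · intro n hn hn' l hl
        by_cases hns : n < s.length
        · have hG := hq4 n hns hn' l hl
          have hsu : s[n] = u[n] := (List.IsPrefix.getElem hp2 hns)
          rw [← hsu]
          exact (ih j hji).2 p' q' (Entry.facts hp hp1).1 (Entry.facts hq hq1).1
            (Entry.facts hp hp1).2.1 (Entry.facts hq hq1).2.1 (g l n)
            (fun k => (Entry.facts hr he).2.2.1 l n k) _ _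
            (le_tail hp hq hpq hp1 hq1) hG
        · obtain ⟨l', hl', e1, e1'⟩ := hq3 l hl
          rw [← e1, ← e1']
          exact hp4 n hn (not_lt.1 hns) l' hl'
    refine ⟨h1, ?_⟩
    intro p q hp hq hpi hqi c hc u N hpq hG
    rw [G_iff hp hpi hc]
    rw [G_iff hq hqi hc] at hG
    intro r hr hri hrp
    exact hG r hr hri (h1 r p q hr hp hq hqi hrp hpq)

theorem G_mono {i : I} {p q : Raw I} (hp : p.WF) (hq : q.WF) (hpi : p.lt i) (hqi : q.lt i)
    {c : ℕ → Raw I} (hc : ∀ k, (c k).WF ∧ (c k).lt i) {u : ℕ → ℕ} {N : ℕ} (h : le p q)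
    (hG : G i q c u N) : G i p c u N :=
  (le_trans_aux i).2 p q hp hq hpi hqi c hc u N h hG

theorem le_trans {p q r : Raw I} (hp : p.WF) (hq : q.WF) (hr : r.WF) (hpq : le p q)
    (hqr : le q r) : le p r := by
  intro j r' t m' g w he
  obtain ⟨q', s, m, f, v, hq1, hq2, hq3, hq4⟩ := hqr j r' t m' g w he
  obtain ⟨p', u, m2, h, x, hp1, hp2, hp3, hp4⟩ := hpq j q' s m f v hq1
  refine ⟨p', u, m2, h, x, hp1, hq2.trans hp2, ?_, ?_⟩
  · intro l hl
    obtain ⟨l', hl', e1, e1'⟩ := hq3 l hl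
    obtain ⟨l2, hl2, e2, e2'⟩ := hp3 l' hl'
    exact ⟨l2, hl2, e2.trans e1, e2'.trans e1'⟩
  · intro n hn hn' l hl
    by_cases hns : n < s.length
    · have hG := hq4 n hns hn' l hl
      have hsu : s[n] = u[n] := (List.IsPrefix.getElem hp2 hns)
      rw [← hsu]
      exact G_mono (Entry.facts hp hp1).1 (Entry.facts hq hq1).1
        (Entry.facts hp hp1).2.1 (Entry.facts hq hq1).2.1
        (fun k => (Entry.facts hr he).2.2.1 l n k)
        (le_tail hp hq hpq hp1 hq1) hG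
    · obtain ⟨l', hl', e1, e1'⟩ := hq3 l hl
      rw [← e1, ← e1']
      exact hp4 n hn (not_lt.1 hns) l' hl'

end Pool.Agent.Helper33.HM.Raw
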