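import Pool.Agent.Helper33.HM.Names

/-!
# Further definitions used in the modules
-/

set_option autoImplicit false

namespace Pool.Agent.Helper33.HM

universe u

variable {B : Type u} [CompleteBooleanAlgebra B]

/-- The pointwise maximum of two names of functions. -/
def maxF (f g : ℕ → ℕ → B) : ℕ → ℕ → B := fun n k => f n k ⊓ g n k

/-- The canonical name of a function. -/
def chk (u : ℕ → ℕ) : ℕ → ℕ → B := fun n => natN (u n)

/-- The mixture of names of functions. -/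
def mixF (a : ℕ → B) (h : ℕ → ℕ → ℕ → B) : ℕ → ℕ → B := fun n k => ⨆ i, a i ⊓ h i n k

/-- The value of: the closed set coded by `T` has measure at most `2^(-k)` at some level. -/
def smallV (k : ℕ) (T : List Bool → B) : B :=
  ⨆ n : ℕ, ⨆ G : Finset (List Bool), ⨆ _ : G.card * 2 ^ k ≤ 2 ^ n,
    ⨅ σ : List Bool, ⨅ _ : σ.length = n ∧ σ ∉ G, (T σ)ᶜ

theorem nullV_eq (T : List Bool → B) : nullV T = ⨅ k, smallV k T := rfl

/-- The intersection of a system of closed sets over all names extending `r`. -/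
def infC (T : Set B) (C : (ℕ → ℕ → B) → List Bool → B) (r : List ℕ) (σ : List Bool) : B :=
  ⨅ f : ℕ → ℕ → B, ⨅ _ : IsFn T f ∧ ExtF r f, C f σ

/-- A Boolean homomorphism which respects the suprema and infima of the sets `J i`. -/
structure IsGen (φ : B → Prop) (J : ℕ → Set B) : Prop where
  top : φ ⊤
  bot : ¬ φ ⊥
  inf : ∀ a b, φ (a ⊓ b) ↔ φ a ∧ φ b
  sup : ∀ a b, φ (a ⊔ b) ↔ φ a ∨ φ b
  compl : ∀ a, φ aᶜ ↔ ¬ φ a
  sSup : ∀ i, φ (sSup (J i)) ↔ ∃ a ∈ J i, φ a
  sInf : ∀ i, φ (sInf (J i)) ↔ ∀ a ∈ J i, φ a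

end Pool.Agent.Helper33.HM
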